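import Pool.Agent.Helper30.DL.FinB
import Pool.Agent.Helper30.DL.FinC

/-!
MP_b4564f_an: the question for all delays.
-/

set_option autoImplicit false

open Filter Topology

namespace Pool.Agent.Results.MP_b4564f_an.AllDelays

/-- `x` is a positive solution of Pielou's equation with delay `k`: the initial values are
`x 0, …, x k` (they are `x_{-k}, …, x_0` in the usual indexing), `x 0, …, x (k-1) ≥ 0`, `x k > 0`,
and `x (n+k+1) = α x (n+k) / (1 + β x n)` for all `n`. -/
def PosSol (α β : ℝ) (k : ℕ) (x : ℕ → ℝ) : Prop :=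
  (∀ n, x (n + k + 1) = α * x (n + k) / (1 + β * x n)) ∧ (∀ i < k, 0 ≤ x i) ∧ 0 < x k

/-- The equilibrium `(α - 1)/β` is locally stable. -/
def Stable (α β : ℝ) (k : ℕ) : Prop :=
  ∀ ε : ℝ, 0 < ε → ∃ δ : ℝ, 0 < δ ∧ ∀ x : ℕ → ℝ, PosSol α β k x →
    (∀ i ≤ k, |x i - (α - 1) / β| < δ) → ∀ n, |x n - (α - 1) / β| < ε

/-- The equilibrium is locally asymptotically stable: locally stable, and positive solutions which
start close to it converge to it. -/
def LocAsStable (α β : ℝ) (k : ℕ) : Prop :=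
  Stable α β k ∧ ∃ γ : ℝ, 0 < γ ∧ ∀ x : ℕ → ℝ, PosSol α β k x →
    (∀ i ≤ k, |x i - (α - 1) / β| < γ) → Tendsto x atTop (𝓝 ((α - 1) / β))

/-- All positive solutions converge to the equilibrium. -/
def Attracting (α β : ℝ) (k : ℕ) : Prop :=
  ∀ x : ℕ → ℝ, PosSol α β k x → Tendsto x atTop (𝓝 ((α - 1) / β))

/-- **Pielou's delay logistic equation, all delays.** The equilibrium is locally asymptotically
stable exactly when it is globally asymptotically stable (locally stable, and every positive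
solution converges to it). More precisely every positive solution converges to it if
`(α - 1)/α ≤ 2 cos (k π/(2k+1))` (the critical value included), and it is not locally stable if
`(α - 1)/α > 2 cos (k π/(2k+1))`. -/
theorem result (α β : ℝ) (k : ℕ) (hα : 1 < α) (hβ : 0 < β) :
    (LocAsStable α β k ↔ Stable α β k ∧ Attracting α β k) ∧
    ((α - 1) / α ≤ 2 * Real.cos (k * Real.pi / (2 * k + 1)) → Attracting α β k) ∧
    (2 * Real.cos (k * Real.pi / (2 * k + 1)) < (α - 1) / α → ¬ Stable α β k) := by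
  have h1 : (α - 1) / α ≤ 2 * Real.cos (k * Real.pi / (2 * k + 1)) → Attracting α β k :=
    fun hc x hx => Pool.Agent.Helper30.DL.conv_nonneg Pool.Agent.Helper30.DL.all hα hβ hc
      hx.1 hx.2.1 hx.2.2
  have h2 : 2 * Real.cos (k * Real.pi / (2 * k + 1)) < (α - 1) / α → ¬ Stable α β k := by
    intro hc hst
    obtain ⟨ε, hε, h⟩ := Pool.Agent.Helper30.DL.unstable hα hβ hc
    obtain ⟨δ, hδ, hst'⟩ := hst ε hε
    obtain ⟨x, hx, hpos, hclose, n, hn⟩ := h δ hδ
    exact absurd (hst' x ⟨hx, fun i hi => (hpos i hi.le).le, hpos k le_rfl⟩ hclose n)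
      (not_lt.mpr hn)
  refine ⟨⟨fun h => ⟨h.1, ?_⟩, fun h => ⟨h.1, 1, one_pos, fun x hx _ => h.2 x hx⟩⟩, h1, h2⟩
  rcases le_or_gt ((α - 1) / α) (2 * Real.cos (k * Real.pi / (2 * k + 1))) with hc | hc
  · exact h1 hc
  · exact absurd h.1 (h2 hc)

end Pool.Agent.Results.MP_b4564f_an.AllDelays
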